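import Mathlib

/-! Choice of exponents. -/

namespace Pool.Agent.TH763.DB

open Finset Module

theorem exists_sub {K : Type} [Field K] (S : Finset (ℤ × ℤ)) (V : Submodule K ((ℤ × ℤ) →₀ K))
    {c : ℕ} (h : finrank K ↥(Finsupp.supported K K (↑S : Set (ℤ × ℤ)) ⊓ V) ≤ c) (hc : c ≤ S.card) :
    ∃ T ⊆ S, T.card + c = S.card ∧ Finsupp.supported K K (↑T : Set (ℤ × ℤ)) ⊓ V = ⊥ := by
  classical
  have hsup : ∀ T : Finset (ℤ × ℤ), Finsupp.supported K K (↑T : Set (ℤ × ℤ)) =
      Submodule.span K ((fun u => Finsupp.single u (1 : K)) '' (↑T : Set (ℤ × ℤ))) := by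
    intro T
    exact Finsupp.supported_eq_span_single K _
  have hfd : ∀ T : Finset (ℤ × ℤ), FiniteDimensional K ↥(Finsupp.supported K K (↑T : Set (ℤ × ℤ))) := by
    intro T
    rw [hsup]
    exact FiniteDimensional.span_of_finite K ((T.finite_toSet).image _)
  have hfr : ∀ T : Finset (ℤ × ℤ), finrank K ↥(Finsupp.supported K K (↑T : Set (ℤ × ℤ))) = T.card := by
    intro T
    rw [(Finsupp.supportedEquivFinsupp (M := K) (R := K) (↑T : Set (ℤ × ℤ))).finrank_eq]
    rw [Module.finrank_finsupp_self]
    simp
  -- induction on the dimension of the intersection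
  have key : ∀ (z : ℕ) (T : Finset (ℤ × ℤ)),
      finrank K ↥(Finsupp.supported K K (↑T : Set (ℤ × ℤ)) ⊓ V) ≤ z → z ≤ T.card →
      ∃ T' ⊆ T, T'.card + z = T.card ∧ Finsupp.supported K K (↑T' : Set (ℤ × ℤ)) ⊓ V = ⊥ := by
    intro z
    induction z with
    | zero =>
      intro T hT _
      refine ⟨T, Subset.refl _, by omega, ?_⟩
      have := hfd T
      have : FiniteDimensional K ↥(Finsupp.supported K K (↑T : Set (ℤ × ℤ)) ⊓ V) :=
        Submodule.finiteDimensional_of_le inf_le_left
      exact Submodule.finrank_eq_zero.1 (by omega)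
    | succ z ih =>
      intro T hT hz
      have := hfd T
      have hfdT : FiniteDimensional K ↥(Finsupp.supported K K (↑T : Set (ℤ × ℤ)) ⊓ V) :=
        Submodule.finiteDimensional_of_le inf_le_left
      by_cases h0 : Finsupp.supported K K (↑T : Set (ℤ × ℤ)) ⊓ V = ⊥
      · -- remove any element
        obtain ⟨u, hu⟩ : T.Nonempty := by
          rw [nonempty_iff_ne_empty]
          rintro rfl
          simp at hz
        obtain ⟨T', h1, h2, h3⟩ := ih (T.erase u) (by
          have h4 : Finsupp.supported K K (↑(T.erase u) : Set (ℤ × ℤ)) ⊓ V ≤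
              Finsupp.supported K K (↑T : Set (ℤ × ℤ)) ⊓ V :=
            inf_le_inf_right _ (Finsupp.supported_mono (by
              exact_mod_cast erase_subset u T))
          rw [h0] at h4
          rw [le_bot_iff.1 h4]
          simp) (by rw [card_erase_of_mem hu]; omega)
        refine ⟨T', h1.trans (erase_subset _ _), ?_, h3⟩
        rw [card_erase_of_mem hu] at h2
        have := card_pos.2 ⟨u, hu⟩
        omega
      · obtain ⟨f, hf, hf0⟩ := Submodule.exists_mem_ne_zero_of_ne_bot h0
        obtain ⟨u, hu⟩ := Finsupp.support_nonempty_iff.2 hf0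
        have huT : u ∈ T := by
          have := (Finsupp.mem_supported K f).1 hf.1
          exact mem_coe.1 (this (mem_coe.2 hu))
        have hlt : Finsupp.supported K K (↑(T.erase u) : Set (ℤ × ℤ)) ⊓ V <
            Finsupp.supported K K (↑T : Set (ℤ × ℤ)) ⊓ V := by
          refine lt_of_le_of_ne (inf_le_inf_right _ (Finsupp.supported_mono (by
              exact_mod_cast erase_subset u T))) ?_
          intro heq
          rw [← heq] at hf
          have h5 := (Finsupp.mem_supported K f).1 hf.1
          have h6 := h5 (mem_coe.2 hu)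
          rw [coe_erase] at h6
          exact h6.2 rfl
        have h7 := Submodule.finrank_lt_finrank_of_lt hlt
        obtain ⟨T', h1, h2, h3⟩ := ih (T.erase u) (by omega) (by rw [card_erase_of_mem huT]; omega)
        refine ⟨T', h1.trans (erase_subset _ _), ?_, h3⟩
        rw [card_erase_of_mem huT] at h2
        have := card_pos.2 ⟨u, huT⟩
        omega
  exact key c S h hc

end Pool.Agent.TH763.DB
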