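import Pool.Agent.TH763.DB.Coll
import Pool.Agent.TH763.DB.Sel

/-! Doubling: the theorem, from the cluster system at one configuration. -/

namespace Pool.Agent.TH763.DB

open Finset Module Pool.Agent.TH176.Nag Pool.Agent.TH603.Sur

/-- the statement of `exists_clu` -/
def CluHyp : Prop :=
  ∀ {N m : ℕ} {κ : Type} [Finite κ] {e : κ → ℕ} (_ : 0 < N) {S : Finset (ℤ × ℤ)}
    (_ : ∀ u ∈ S, 0 ≤ u.1 ∧ 0 ≤ u.2) {c0 : ℕ}
    (_ : ∃ T ⊆ S, T.card + c0 = S.card ∧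
      Emp (Sum.elim (fun _ : Fin N => 2 * m) e) (↑T : Set (ℤ × ℤ)))
    (_ : Emp (Sum.elim (fun _ : Fin N => 2 * m + 1) e) (↑S : Set (ℤ × ℤ))),
    ∃ (K : Type) (_ : Field K) (_ : CharZero K) (x y : Fin N → K) (x' y' : κ → K)
      (D E : Fin N → K × K),
      (∀ i, x i ≠ 0) ∧ (∀ i, y i ≠ 0) ∧ (∀ i, x' i ≠ 0) ∧ (∀ i, y' i ≠ 0) ∧
      finrank K ↥(Sys S x' y' e ⊓ ⨅ i, Clu (x i) (y i) (D i) (E i) m) ≤ c0 - N * m

theorem doubling_of (H : CluHyp) {N m : ℕ} {κ : Type} [Fintype κ] {e : κ → ℕ} (hN : 0 < N)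
    {S : Finset (ℤ × ℤ)} (hpos : ∀ u ∈ S, 0 ≤ u.1 ∧ 0 ≤ u.2)
    (h1 : Sur (Sum.elim (fun _ : Fin N => 2 * m) e) (↑S : Set (ℤ × ℤ)))
    (h2 : Emp (Sum.elim (fun _ : Fin N => 2 * m + 1) e) (↑S : Set (ℤ × ℤ))) :
    (S.card ≤ cond (Sum.elim (fun _ : Fin N × (Fin 2 × Fin 2) => m) e) →
      Emp (Sum.elim (fun _ : Fin N × (Fin 2 × Fin 2) => m) e) (↑S : Set (ℤ × ℤ))) ∧
    (cond (Sum.elim (fun _ : Fin N × (Fin 2 × Fin 2) => m) e) ≤ S.card →
      Sur (Sum.elim (fun _ : Fin N × (Fin 2 × Fin 2) => m) e) (↑S : Set (ℤ × ℤ))) := by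
  classical
  -- the number of conditions
  obtain ⟨q, hq⟩ : ∃ q : ℕ, q = ∑ j, (e j + 1).choose 2 := ⟨_, rfl⟩
  have hc1 : cond (Sum.elim (fun _ : Fin N => 2 * m) e) = N * (2 * m + 1).choose 2 + q := by
    unfold Pool.Agent.TH603.Sur.cond
    rw [Fintype.sum_sum_type]
    simp only [Sum.elim_inl, Sum.elim_inr, sum_const, card_univ, Fintype.card_fin, smul_eq_mul]
    rw [← hq]
  have hc2 : cond (Sum.elim (fun _ : Fin N × (Fin 2 × Fin 2) => m) e) =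
      N * 4 * (m + 1).choose 2 + q := by
    unfold Pool.Agent.TH603.Sur.cond
    rw [Fintype.sum_sum_type]
    simp only [Sum.elim_inl, Sum.elim_inr, sum_const, card_univ, Fintype.card_prod, Fintype.card_fin,
      smul_eq_mul]
    rw [← hq]
  have hch1 : (2 * m + 1).choose 2 = m * (2 * m + 1) := by
    rw [Nat.choose_two_right]
    have : (2 * m + 1) * (2 * m + 1 - 1) = 2 * (m * (2 * m + 1)) := by
      rw [Nat.add_sub_cancel]; ring
    rw [this, Nat.mul_div_cancel_left _ (by norm_num)]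
  have hch2 : 2 * (m + 1).choose 2 = m * (m + 1) := by
    rw [Nat.choose_two_right, Nat.add_sub_cancel, mul_comm m (m + 1)]
    exact Nat.mul_div_cancel' (Nat.even_mul_pred_self (m + 1)).two_dvd
  have hrel : N * 4 * (m + 1).choose 2 = N * (2 * m + 1).choose 2 + N * m := by
    rw [hch1]
    have : N * 4 * (m + 1).choose 2 = N * 2 * (2 * (m + 1).choose 2) := by ring
    rw [this, hch2]
    ring
  obtain ⟨T, hTS, hTc, hTE⟩ := h1
  have hTS' : T ⊆ S := fun u hu => mem_coe.1 (hTS (mem_coe.2 hu))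
  have hle : T.card ≤ S.card := card_le_card hTS'
  obtain ⟨K, _, _, x, y, x', y', D, E, hx, hy, hx', hy', hfr⟩ :=
    H hN hpos (c0 := S.card - T.card) ⟨T, hTS', by omega, hTE⟩ h2
  obtain ⟨c, hc⟩ : ∃ c : ℕ, c = S.card - T.card - N * m := ⟨_, rfl⟩
  rw [← hc] at hfr
  have hform : ∀ S' : Finset (ℤ × ℤ), Sys S' x' y' e ⊓ ⨅ i, Clu (x i) (y i) (D i) (E i) m =
      Finsupp.supported K K (↑S' : Set (ℤ × ℤ)) ⊓
        ((⨅ j, Mul (x' j) (y' j) (e j)) ⊓ ⨅ i, Clu (x i) (y i) (D i) (E i) m) := by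
    intro S'
    unfold Sys
    rw [inf_assoc]
  rw [hform] at hfr
  obtain ⟨T', hT'S, hT'c, hT'⟩ := exists_sub S _ hfr (by omega)
  rw [← hform] at hT'
  have hE := collide x y x' y' hx hy hx' hy' D E T' hT'
  constructor
  · intro hcard
    have : T' = S := by
      apply eq_of_subset_of_card_le hT'S
      omega
    rw [← this]
    exact hE
  · intro hcard
    exact ⟨T', by exact_mod_cast hT'S, by omega, hE⟩

end Pool.Agent.TH763.DB
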