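import Pool.Agent.TH763.DB.Asm
import Pool.Agent.TH763.DB.Dbl

/-! The doubling theorem. -/

namespace Pool.Agent.TH763.DB

open Finset Module Pool.Agent.TH176.Nag Pool.Agent.TH603.Sur

/-- **Doubling theorem.**  If `N` points of multiplicity `2 m` (and spectators of multiplicities `e`)
impose independent conditions on the exponents `S`, and the system with `N` points of multiplicity
`2 m + 1` (and the spectators) is empty, then `4 N` points of multiplicity `m` and the spectators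
have the expected dimension on `S`. -/
theorem doubling {N m : ℕ} {κ : Type} [Fintype κ] {e : κ → ℕ} (hN : 0 < N)
    {S : Finset (ℤ × ℤ)} (hpos : ∀ u ∈ S, 0 ≤ u.1 ∧ 0 ≤ u.2)
    (h1 : Sur (Sum.elim (fun _ : Fin N => 2 * m) e) (↑S : Set (ℤ × ℤ)))
    (h2 : Emp (Sum.elim (fun _ : Fin N => 2 * m + 1) e) (↑S : Set (ℤ × ℤ))) :
    (S.card ≤ cond (Sum.elim (fun _ : Fin N × (Fin 2 × Fin 2) => m) e) →
      Emp (Sum.elim (fun _ : Fin N × (Fin 2 × Fin 2) => m) e) (↑S : Set (ℤ × ℤ))) ∧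
    (cond (Sum.elim (fun _ : Fin N × (Fin 2 × Fin 2) => m) e) ≤ S.card →
      Sur (Sum.elim (fun _ : Fin N × (Fin 2 × Fin 2) => m) e) (↑S : Set (ℤ × ℤ))) :=
  doubling_of (fun {_ _} {_} [Finite _] {_} hN {_} hpos {_} h1 h2 => exists_clu hN hpos h1 h2) hN hpos h1 h2

end Pool.Agent.TH763.DB
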