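import Pool.Agent.TH603.Sur.Basic

/-! Doubling: definitions. -/

namespace Pool.Agent.TH763.DB

open Finset Pool.Agent.TH176.Nag Pool.Agent.TH603.Sur

section
variable {K : Type} [Field K]

/-- the linear form with coefficients `D` -/
def lin (D : K × K) (u : K × K) : K := D.1 * u.1 + D.2 * u.2

/-- the product of powers of two linear forms -/
def qq (D E : K × K) (k l : ℕ) : K × K → K := fun u => lin D u ^ k * lin E u ^ l

/-- the Laurent polynomials killed by the functional of `P` at `(x, y)` -/
noncomputable def Ker (x y : K) (P : K × K → K) : Submodule K ((ℤ × ℤ) →₀ K) where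
  carrier := {f | pr f x y P = 0}
  add_mem' := by
    intro f g hf hg
    change pr f x y P = 0 at hf
    change pr g x y P = 0 at hg
    change pr (f + g) x y P = 0
    rw [pr_add_left', hf, hg, add_zero]
  zero_mem' := by
    change pr 0 x y P = 0
    unfold pr
    simp
  smul_mem' := by
    intro c f hf
    change pr f x y P = 0 at hf
    change pr (c • f) x y P = 0
    rw [pr_smul_left, hf, mul_zero]

theorem mem_Ker {x y : K} {P : K × K → K} {f : (ℤ × ℤ) →₀ K} : f ∈ Ker x y P ↔ pr f x y P = 0 :=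
  Iff.rfl

/-- multiplicity at least `w` at `(x, y)` -/
noncomputable def Mul (x y : K) (w : ℕ) : Submodule K ((ℤ × ℤ) →₀ K) where
  carrier := {f | LM f x y w}
  add_mem' := by
    intro f g hf hg P hP
    rw [pr_add_left', hf P hP, hg P hP, add_zero]
  zero_mem' := by
    intro P _
    unfold pr
    simp
  smul_mem' := by
    intro c f hf P hP
    rw [pr_smul_left, hf P hP, mul_zero]

theorem mem_Mul {x y : K} {w : ℕ} {f : (ℤ × ℤ) →₀ K} : f ∈ Mul x y w ↔ LM f x y w := Iff.rfl

/-- the Laurent polynomials with exponents in `S` and multiplicity at least `w i` at the point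
`(x i, y i)` for all `i` -/
noncomputable def Sys {ι : Type} (S : Finset (ℤ × ℤ)) (x y : ι → K) (w : ι → ℕ) :
    Submodule K ((ℤ × ℤ) →₀ K) :=
  Finsupp.supported K K (↑S : Set (ℤ × ℤ)) ⊓ ⨅ i, Mul (x i) (y i) (w i)

/-- the conditions of odd type on the terms of degree `2 m` at `(x, y)` -/
noncomputable def Od (x y : K) (D E : K × K) (m : ℕ) : Submodule K ((ℤ × ℤ) →₀ K) :=
  ⨅ (k : ℕ) (l : ℕ) (_ : k + l = 2 * m) (_ : Odd k), Ker x y (qq D E k l)

/-- all terms of degree `2 m` vanish at `(x, y)` -/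
noncomputable def Top (x y : K) (m : ℕ) : Submodule K ((ℤ × ℤ) →₀ K) :=
  ⨅ (a : ℕ) (b : ℕ) (_ : a + b = 2 * m), Ker x y (fun u => u.1 ^ a * u.2 ^ b)

/-- the cluster conditions: the limit of four points of multiplicity `m` -/
noncomputable def Clu (x y : K) (D E : K × K) (m : ℕ) : Submodule K ((ℤ × ℤ) →₀ K) :=
  ⨅ (k : ℕ) (l : ℕ) (_ : k / 2 + l / 2 < m), Ker x y (qq D E k l)

end

end Pool.Agent.TH763.DB
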