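import Mathlib

/-! Pade approximants of the exponential series. -/

namespace Pool.Agent.TH763.DB

open Polynomial Module

theorem pade_inj (K : Type) [Field K] [CharZero K] (q : ℕ) : ∀ p : ℕ, ∀ A B : Polynomial K,
    A.degree < (p : WithBot ℕ) → B.degree < (q : WithBot ℕ) →
    (∀ j < p + q, PowerSeries.coeff j ((A : PowerSeries K) + (B : PowerSeries K) * PowerSeries.exp K) = 0) →
    A = 0 ∧ B = 0 := by
  intro p
  induction p with
  | zero =>
    intro A B hA hB h
    have hA0 : A = 0 := by
      by_contra hne
      have h1 := Polynomial.zero_le_degree_iff.2 hne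
      exact absurd (lt_of_lt_of_le hA (by exact_mod_cast h1)) (lt_irrefl _)
    subst hA0
    refine ⟨rfl, ?_⟩
    have h1 : (PowerSeries.X : PowerSeries K) ^ q ∣ (B : PowerSeries K) * PowerSeries.exp K := by
      rw [PowerSeries.X_pow_dvd_iff]
      intro j hj
      have := h j (by omega)
      simpa using this
    have h2 : IsUnit (PowerSeries.exp K) := PowerSeries.isUnit_exp K
    have h3 : (PowerSeries.X : PowerSeries K) ^ q ∣ (B : PowerSeries K) := by
      exact (h2.dvd_mul_right).1 h1
    rw [PowerSeries.X_pow_dvd_iff] at h3
    ext j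
    rcases lt_or_ge j q with hj | hj
    · have := h3 j hj
      rw [Polynomial.coeff_coe] at this
      rw [this, Polynomial.coeff_zero]
    · rw [Polynomial.coeff_zero]
      exact Polynomial.coeff_eq_zero_of_degree_lt (lt_of_lt_of_le hB (by exact_mod_cast hj))
  | succ p ih =>
    intro A B hA hB h
    have hder : ∀ j < p + q, PowerSeries.coeff j (((derivative A : Polynomial K) : PowerSeries K) +
        ((B + derivative B : Polynomial K) : PowerSeries K) * PowerSeries.exp K) = 0 := by
      intro j hj
      have h1 : (((derivative A : Polynomial K) : PowerSeries K) +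
        ((B + derivative B : Polynomial K) : PowerSeries K) * PowerSeries.exp K) =
          PowerSeries.derivative K ((A : PowerSeries K) + (B : PowerSeries K) * PowerSeries.exp K) := by
        rw [map_add, Derivation.leibniz, PowerSeries.derivative_coe, PowerSeries.derivative_coe,
          PowerSeries.derivative_exp, smul_eq_mul, smul_eq_mul, Polynomial.coe_add]
        ring
      rw [h1, PowerSeries.coeff_derivative, h (j + 1) (by omega), zero_mul]
    have hA' : (derivative A).degree < (p : WithBot ℕ) := by
      by_cases hA0 : derivative A = 0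
      · rw [hA0, Polynomial.degree_zero]; exact WithBot.bot_lt_coe p
      · have hne : A ≠ 0 := by rintro rfl; simp at hA0
        have h1 := Polynomial.degree_derivative_lt hne
        rw [Polynomial.degree_eq_natDegree hA0, Polynomial.degree_eq_natDegree hne] at h1
        rw [Polynomial.degree_eq_natDegree hne] at hA
        rw [Polynomial.degree_eq_natDegree hA0]
        have h2 : A.natDegree < p + 1 := by exact_mod_cast hA
        have h3 : (derivative A).natDegree < A.natDegree := by exact_mod_cast h1
        exact_mod_cast (by omega : (derivative A).natDegree < p)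
    have hB' : (B + derivative B).degree < (q : WithBot ℕ) := by
      refine lt_of_le_of_lt (Polynomial.degree_add_le _ _) (max_lt hB ?_)
      exact lt_of_le_of_lt (Polynomial.degree_derivative_le) hB
    obtain ⟨h1, h2⟩ := ih _ _ hA' hB' hder
    have hB0 : B = 0 := by
      by_contra hne
      have h3 := Polynomial.degree_derivative_lt hne
      have h4 := Polynomial.degree_add_eq_left_of_degree_lt h3
      rw [h2, Polynomial.degree_zero] at h4
      exact hne (Polynomial.degree_eq_bot.1 h4.symm)
    subst hB0
    refine ⟨?_, rfl⟩
    have h3 := Polynomial.derivative_eq_zero.1 h1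
    have h4 := h 0 (by omega)
    rw [Polynomial.eq_C_of_natDegree_eq_zero h3] at h4 ⊢
    have h5 : A.coeff 0 = 0 := by simpa using h4
    rw [h5, Polynomial.C_0]

/-- Pade: for every `k` there are polynomials `A, B` of degree at most `k / 2` with
`A + B exp = X ^ k + O(X ^ (k + 1))` -/
theorem pade (K : Type) [Field K] [CharZero K] (k : ℕ) :
    ∃ A B : Polynomial K, A.natDegree ≤ k / 2 ∧ B.natDegree ≤ k / 2 ∧
      (∀ j < k, PowerSeries.coeff j ((A : PowerSeries K) + (B : PowerSeries K) * PowerSeries.exp K) = 0) ∧
      PowerSeries.coeff k ((A : PowerSeries K) + (B : PowerSeries K) * PowerSeries.exp K) = 1 := by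
  obtain ⟨p, hp⟩ : ∃ p : ℕ, p = k / 2 + 1 := ⟨_, rfl⟩
  obtain ⟨q, hq⟩ : ∃ q : ℕ, q = k - k / 2 := ⟨_, rfl⟩
  have hpq : p + q = k + 1 := by omega
  let V := ↥(degreeLT K p) × ↥(degreeLT K q)
  let L : V →ₗ[K] (Fin (p + q) → K) :=
    { toFun := fun v j => PowerSeries.coeff (j : ℕ) (((v.1 : Polynomial K) : PowerSeries K) +
        ((v.2 : Polynomial K) : PowerSeries K) * PowerSeries.exp K)
      map_add' := by
        intro v w
        funext j
        have h1 : (((v + w).1 : Polynomial K) : PowerSeries K) + (((v + w).2 : Polynomial K) : PowerSeries K) * PowerSeries.exp K =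
            (((v.1 : Polynomial K) : PowerSeries K) + ((v.2 : Polynomial K) : PowerSeries K) * PowerSeries.exp K) +
            (((w.1 : Polynomial K) : PowerSeries K) + ((w.2 : Polynomial K) : PowerSeries K) * PowerSeries.exp K) := by
          rw [Prod.fst_add, Prod.snd_add, Submodule.coe_add, Submodule.coe_add, Polynomial.coe_add,
            Polynomial.coe_add]
          ring
        rw [h1, map_add]
        rfl
      map_smul' := by
        intro c v
        funext j
        have h1 : (((c • v).1 : Polynomial K) : PowerSeries K) + (((c • v).2 : Polynomial K) : PowerSeries K) * PowerSeries.exp K =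
            c • (((v.1 : Polynomial K) : PowerSeries K) + ((v.2 : Polynomial K) : PowerSeries K) * PowerSeries.exp K) := by
          rw [Prod.smul_fst, Prod.smul_snd, Submodule.coe_smul, Submodule.coe_smul, Polynomial.coe_smul,
            Polynomial.coe_smul, smul_add, smul_mul_assoc]
        rw [h1, map_smul]
        rfl }
  have hfin : finrank K V = finrank K (Fin (p + q) → K) := by
    have : FiniteDimensional K ↥(degreeLT K p) := (degreeLTEquiv K p).symm.finiteDimensional
    have : FiniteDimensional K ↥(degreeLT K q) := (degreeLTEquiv K q).symm.finiteDimensional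
    rw [Module.finrank_prod, (degreeLTEquiv K p).finrank_eq, (degreeLTEquiv K q).finrank_eq,
      Module.finrank_fin_fun, Module.finrank_fin_fun, Module.finrank_fin_fun]
  have : FiniteDimensional K V := by
    have : FiniteDimensional K ↥(degreeLT K p) := (degreeLTEquiv K p).symm.finiteDimensional
    have : FiniteDimensional K ↥(degreeLT K q) := (degreeLTEquiv K q).symm.finiteDimensional
    infer_instance
  have hinj : Function.Injective L := by
    rw [injective_iff_map_eq_zero]
    intro v hv
    have h1 := pade_inj K q p v.1 v.2 (mem_degreeLT.1 v.1.2) (mem_degreeLT.1 v.2.2) (by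
      intro j hj
      exact congrFun hv ⟨j, hj⟩)
    exact Prod.ext (Subtype.ext h1.1) (Subtype.ext h1.2)
  have hsur := (LinearMap.injective_iff_surjective_of_finrank_eq_finrank hfin).1 hinj
  obtain ⟨v, hv⟩ := hsur (Pi.single ⟨k, by omega⟩ 1)
  refine ⟨v.1, v.2, ?_, ?_, ?_, ?_⟩
  · have h1 := mem_degreeLT.1 v.1.2
    by_cases h0 : (v.1 : Polynomial K) = 0
    · rw [h0]; simp
    · have h2 := (Polynomial.natDegree_lt_iff_degree_lt h0).2 h1
      omega
  · have h1 := mem_degreeLT.1 v.2.2
    by_cases h0 : (v.2 : Polynomial K) = 0
    · rw [h0]; simp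
    · have h2 := (Polynomial.natDegree_lt_iff_degree_lt h0).2 h1
      omega
  · intro j hj
    have h1 := congrFun hv ⟨j, by omega⟩
    rw [Pi.single_eq_of_ne (by intro h; simp only [Fin.mk.injEq] at h; omega)] at h1
    exact h1
  · have h1 := congrFun hv ⟨k, by omega⟩
    rw [Pi.single_eq_same] at h1
    exact h1

end Pool.Agent.TH763.DB
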