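import Pool.Agent.TH763.DB.Conv
import Pool.Agent.TH552.BB.Tr

/-! The cluster system at one configuration. -/

namespace Pool.Agent.TH763.DB

open Finset Module Pool.Agent.TH176.Nag Pool.Agent.TH603.Sur

section
variable {K : Type} [Field K]

theorem mul_of_clu {f : (ℤ × ℤ) →₀ K} {x y : K} {D E : K × K} {m : ℕ} (hDE : D.1 * E.2 - D.2 * E.1 ≠ 0)
    (hf : f ∈ Clu x y D E m) : f ∈ Mul x y (2 * m) := by
  unfold Clu at hf
  simp only [Submodule.mem_iInf] at hf
  have h1 : ∀ P ∈ PF K (2 * m), pr f x y (fun u => P (lin D u, lin E u)) = 0 := by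
    intro P hP
    induction hP using Submodule.span_induction with
    | mem P h =>
      obtain ⟨a, b, hab, rfl⟩ := h
      exact hf a b (by omega)
    | zero =>
      change pr f x y 0 = 0
      exact pr_zero_right f x y
    | add P Q _ _ hP hQ =>
      have := pr_add_right f x y (fun u => P (lin D u, lin E u)) (fun u => Q (lin D u, lin E u))
      rw [hP, hQ, add_zero] at this
      exact this
    | smul a P _ hP =>
      have := pr_smul_right f x y a (fun u => P (lin D u, lin E u))
      rw [hP, mul_zero] at this
      exact this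
  rw [mem_Mul]
  intro Q hQ
  obtain ⟨t, ht⟩ : ∃ t : K, t = (D.1 * E.2 - D.2 * E.1)⁻¹ := ⟨_, rfl⟩
  have ht1 : t * (D.1 * E.2 - D.2 * E.1) = 1 := by rw [ht]; exact inv_mul_cancel₀ hDE
  have h2 := PF_comp_aff hQ 0 (t * E.2) (-(t * D.2)) 0 (-(t * E.1)) (t * D.1)
  have h3 := h1 _ h2
  have h4 : (fun u : K × K => Q (0 + t * E.2 * lin D u + -(t * D.2) * lin E u,
      0 + -(t * E.1) * lin D u + t * D.1 * lin E u)) = Q := by
    funext u
    congr 1
    unfold lin
    ext
    · simp only
      linear_combination u.1 * ht1
    · simp only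
      linear_combination u.2 * ht1
  simp only at h3
  rw [h4] at h3
  exact h3

theorem od_of_clu {f : (ℤ × ℤ) →₀ K} {x y : K} {D E : K × K} {m : ℕ}
    (hf : f ∈ Clu x y D E m) : f ∈ Od x y D E m := by
  unfold Clu at hf
  unfold Od
  simp only [Submodule.mem_iInf] at hf ⊢
  intro k l hkl hk
  refine hf k l ?_
  obtain ⟨r, hr⟩ := hk
  omega

theorem top_step {f : (ℤ × ℤ) →₀ K} {x y : K} {m : ℕ} (h1 : LM f x y (2 * m))
    (h2 : f ∈ Top x y m) : LM f x y (2 * m + 1) := by
  unfold Top at h2
  simp only [Submodule.mem_iInf] at h2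
  apply LM_of_mono
  intro a b hab
  rcases Nat.lt_or_ge (a + b) (2 * m) with h | h
  · exact h1 _ (mem_PF_mono h)
  · exact h2 a b (by omega)

end

theorem arith_end {N a b c0 m : ℕ} (hN : 0 < N) (hb : b ≤ N) (h : N * a ≤ b * c0) :
    a - b * m ≤ c0 - N * m := by
  rcases Nat.lt_or_ge (b * m) a with h1 | h1
  · have h2 : N * m ≤ c0 := by
      by_contra hcon
      push Not at hcon
      have h3 : N * (b * m) < N * a := Nat.mul_lt_mul_of_pos_left h1 hN
      have h4 : b * c0 ≤ b * (N * m) := Nat.mul_le_mul_left _ hcon.le
      have h5 : b * (N * m) = N * (b * m) := by ring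
      omega
    obtain ⟨s, hs⟩ : ∃ s, c0 = N * m + s := ⟨c0 - N * m, by omega⟩
    obtain ⟨r, hr⟩ : ∃ r, a = b * m + r := ⟨a - b * m, by omega⟩
    subst hs hr
    have h3 : N * r ≤ b * s := by nlinarith
    have h4 : N * r ≤ N * s := h3.trans (Nat.mul_le_mul_right _ hb)
    have h5 := Nat.le_of_mul_le_mul_left h4 hN
    omega
  · omega

theorem exists_clu {N m : ℕ} {κ : Type} [Finite κ] {e : κ → ℕ} (hN : 0 < N) {S : Finset (ℤ × ℤ)}
    (hpos : ∀ u ∈ S, 0 ≤ u.1 ∧ 0 ≤ u.2) {c0 : ℕ}
    (h1 : ∃ T ⊆ S, T.card + c0 = S.card ∧
      Emp (Sum.elim (fun _ : Fin N => 2 * m) e) (↑T : Set (ℤ × ℤ)))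
    (h2 : Emp (Sum.elim (fun _ : Fin N => 2 * m + 1) e) (↑S : Set (ℤ × ℤ))) :
    ∃ (K : Type) (_ : Field K) (_ : CharZero K) (x y : Fin N → K) (x' y' : κ → K)
      (D E : Fin N → K × K),
      (∀ i, x i ≠ 0) ∧ (∀ i, y i ≠ 0) ∧ (∀ i, x' i ≠ 0) ∧ (∀ i, y' i ≠ 0) ∧
      finrank K ↥(Sys S x' y' e ⊓ ⨅ i, Clu (x i) (y i) (D i) (E i) m) ≤ c0 - N * m := by
  classical
  obtain ⟨K, _, _, x, y, x', y', hx, hy, hx', hy', hJ⟩ := exists_conf hN hpos h1 h2
  let W : Finset (Fin N) → Submodule K ((ℤ × ℤ) →₀ K) := fun J =>
    Sys S (Sum.elim x x') (Sum.elim y y') (wJ N m e J)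
  have hW : ∀ J, N * finrank K ↥(W J) ≤ (N - J.card) * c0 := hJ
  have hWfd : ∀ J, FiniteDimensional K ↥(W J) := fun J => by
    have := fd_supp (K := K) S
    exact Submodule.finiteDimensional_of_le (inf_le_left : W J ≤ _)
  let B : (Fin N → K × K) → (Fin N → K × K) → ℕ → Submodule K ((ℤ × ℤ) →₀ K) := fun D E i =>
    ⨅ (j : Fin N) (_ : (j : ℕ) < i), Od (x j) (y j) (D j) (E j) m
  have key : ∀ i : ℕ, i ≤ N → ∃ D E : Fin N → K × K, (∀ j, (D j).1 * (E j).2 - (D j).2 * (E j).1 ≠ 0) ∧
      ∀ J : Finset (Fin N), (∀ k ∈ J, i ≤ (k : ℕ)) → ∃ I : Finset (Fin N), I.card ≤ i ∧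
        (∀ k ∈ I, (k : ℕ) < i) ∧
        finrank K ↥(W J ⊓ B D E i) ≤ finrank K ↥(W (J ∪ I)) - (i - I.card) * m := by
    intro i
    induction i with
    | zero =>
      intro _
      refine ⟨fun _ => (1, 0), fun _ => (0, 1), fun _ => by simp, fun J _ => ⟨∅, by simp, by simp, ?_⟩⟩
      have := hWfd J
      rw [union_empty]
      simp only [card_empty, Nat.sub_zero, zero_mul]
      exact Submodule.finrank_mono inf_le_left
    | succ i ih =>
      intro hi
      obtain ⟨D, E, hDE, hIH⟩ := ih (by omega)
      let p : Fin N := ⟨i, by omega⟩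
      obtain ⟨D', E', hDE', htr⟩ := Pool.Agent.TH552.BB.trans_one (x p) (y p) m
        (fun J : Finset (Fin N) => W J ⊓ B D E i) (fun J => by
          have := hWfd J
          exact Submodule.finiteDimensional_of_le (inf_le_left : W J ⊓ B D E i ≤ W J))
      refine ⟨Function.update D p D', Function.update E p E', ?_, ?_⟩
      · intro j
        by_cases hj : j = p
        · subst hj
          rw [Function.update_self, Function.update_self]
          exact hDE'
        · rw [Function.update_of_ne hj, Function.update_of_ne hj]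
          exact hDE j
      · intro J hJi
        have hB : W J ⊓ B (Function.update D p D') (Function.update E p E') (i + 1) ≤
            W J ⊓ B D E i ⊓ Od (x p) (y p) D' E' m := by
          rintro f ⟨hf1, hf2⟩
          simp only [B] at hf2
          rw [SetLike.mem_coe] at hf2
          simp only [Submodule.mem_iInf] at hf2
          refine ⟨⟨hf1, ?_⟩, ?_⟩
          · simp only [B]
            rw [SetLike.mem_coe]
            simp only [Submodule.mem_iInf]
            intro j hj
            have h3 := hf2 j (by omega)
            have hne : j ≠ p := by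
              intro h
              have := congrArg Fin.val h
              simp only [p] at this
              omega
            rw [Function.update_of_ne hne, Function.update_of_ne hne] at h3
            exact h3
          · have h3 := hf2 p (by simp only [p]; omega)
            rw [Function.update_self, Function.update_self] at h3
            exact h3
        have hfdJ := hWfd J
        have hfd2 : FiniteDimensional K ↥(W J ⊓ B D E i ⊓ Od (x p) (y p) D' E' m) :=
          Submodule.finiteDimensional_of_le ((inf_le_left.trans inf_le_left) :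
            W J ⊓ B D E i ⊓ Od (x p) (y p) D' E' m ≤ W J)
        have h3 := (Submodule.finrank_mono hB).trans (htr J)
        have hpJ : p ∉ J := by
          intro h
          have := hJi p h
          simp only [p] at this
          omega
        rcases le_max_iff.1 h3 with h4 | h4
        · -- the kernel
          have hins : ∀ k ∈ insert p J, i ≤ (k : ℕ) := by
            intro k hk
            rcases mem_insert.1 hk with rfl | hk
            · simp only [p]; exact le_refl _
            · have := hJi k hk
              omega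
          obtain ⟨I, hI1, hI2, hI3⟩ := hIH (insert p J) hins
          have hle : W J ⊓ B D E i ⊓ Top (x p) (y p) m ≤ W (insert p J) ⊓ B D E i := by
            rintro f ⟨⟨hf1, hf2⟩, hf3⟩
            refine ⟨⟨hf1.1, ?_⟩, hf2⟩
            have hf1' := hf1.2
            rw [SetLike.mem_coe, Submodule.mem_iInf] at hf1' ⊢
            rintro (j | j)
            · by_cases hj : j = p
              · have h5 := hf1' (Sum.inl p)
                have e1 : wJ N m e J (Sum.inl p) = 2 * m := by simp [wJ, hpJ]
                have e2 : wJ N m e (insert p J) (Sum.inl p) = 2 * m + 1 := by simp [wJ]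
                rw [hj]
                rw [e1] at h5
                rw [e2]
                exact top_step h5 hf3
              · have h5 := hf1' (Sum.inl j)
                have e1 : wJ N m e J (Sum.inl j) = wJ N m e (insert p J) (Sum.inl j) := by
                  simp [wJ, hj]
                rw [← e1]
                exact h5
            · exact hf1' (Sum.inr j)
          have hfdi := hWfd (insert p J)
          have hfd3 : FiniteDimensional K ↥(W (insert p J) ⊓ B D E i) :=
            Submodule.finiteDimensional_of_le (inf_le_left : W (insert p J) ⊓ B D E i ≤ W (insert p J))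
          have hpI : p ∉ I := by
            intro h
            have := hI2 p h
            simp only [p] at this
            omega
          refine ⟨insert p I, ?_, ?_, ?_⟩
          · rw [card_insert_of_notMem hpI]; omega
          · intro k hk
            rcases mem_insert.1 hk with rfl | hk
            · simp only [p]; omega
            · have := hI2 k hk
              omega
          · rw [card_insert_of_notMem hpI, union_insert, ← insert_union]
            have h5 := (h4.trans (Submodule.finrank_mono hle)).trans hI3
            have e3 : i + 1 - (I.card + 1) = i - I.card := by omega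
            rw [e3]
            exact h5
        · obtain ⟨I, hI1, hI2, hI3⟩ := hIH J (fun k hk => by have := hJi k hk; omega)
          refine ⟨I, by omega, fun k hk => by have := hI2 k hk; omega, ?_⟩
          have e3 : (i + 1 - I.card) * m = (i - I.card) * m + m := by
            have : i + 1 - I.card = (i - I.card) + 1 := by omega
            rw [this]; ring
          rw [e3]
          omega
  obtain ⟨D, E, hDE, hfin⟩ := key N (le_refl _)
  obtain ⟨I, hI1, _, hI3⟩ := hfin ∅ (by simp)
  refine ⟨K, inferInstance, inferInstance, x, y, x', y', D, E, hx, hy, hx', hy', ?_⟩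
  have hle : Sys S x' y' e ⊓ ⨅ i, Clu (x i) (y i) (D i) (E i) m ≤ W ∅ ⊓ B D E N := by
    rintro f ⟨hf1, hf2⟩
    rw [SetLike.mem_coe, Submodule.mem_iInf] at hf2
    refine ⟨⟨hf1.1, ?_⟩, ?_⟩
    · have hf1' := hf1.2
      rw [SetLike.mem_coe, Submodule.mem_iInf] at hf1' ⊢
      rintro (j | j)
      · have e1 : wJ N m e ∅ (Sum.inl j) = 2 * m := by simp [wJ]
        rw [e1]
        exact mul_of_clu (hDE j) (hf2 j)
      · exact hf1' j
    · simp only [B]
      rw [SetLike.mem_coe]
      simp only [Submodule.mem_iInf]
      intro j _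
      exact od_of_clu (hf2 j)
  have := hWfd ∅
  have hfd4 : FiniteDimensional K ↥(W ∅ ⊓ B D E N) :=
    Submodule.finiteDimensional_of_le (inf_le_left : W ∅ ⊓ B D E N ≤ W ∅)
  have h5 := (Submodule.finrank_mono hle).trans hI3
  rw [empty_union] at h5
  exact h5.trans (arith_end hN (Nat.sub_le _ _) (hW I))

end Pool.Agent.TH763.DB
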